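import Mathlib

open Matrix

namespace Pool.Agent.Results.MP_bcebf9_gt.SphereReduction

noncomputable section

/-! Singular cohomology with rational coefficients, from singular cochains. -/

/-- Singular `n`-simplices of `X`. -/
def Simplex (X : Type) [TopologicalSpace X] (n : ℕ) : Type := C(stdSimplex ℝ (Fin (n + 1)), X)

/-- The `i`-th face of a singular `(n+1)`-simplex. -/
def face {X : Type} [TopologicalSpace X] {n : ℕ} (i : Fin (n + 2)) (σ : Simplex X (n + 1)) :
    Simplex X n :=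
  ContinuousMap.comp σ ⟨stdSimplex.map i.succAbove, stdSimplex.continuous_map _⟩

/-- The singular coboundary of a rational cochain. -/
def cobd {X : Type} [TopologicalSpace X] {n : ℕ} (c : Simplex X n → ℚ) (σ : Simplex X (n + 1)) :
    ℚ :=
  ∑ i : Fin (n + 2), (-1) ^ (i : ℕ) * c (face i σ)

/-- Singular cocycles. -/
def IsCocycle {X : Type} [TopologicalSpace X] {n : ℕ} (c : Simplex X n → ℚ) : Prop :=
  ∀ σ, cobd c σ = 0

/-- Two cochains are cohomologous if they differ by a coboundary (in degree `0`: if they are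
equal). -/
def Cohomologous {X : Type} [TopologicalSpace X] : {n : ℕ} → (c c' : Simplex X n → ℚ) → Prop
  | 0, c, c' => c = c'
  | _ + 1, c, c' => ∃ b, ∀ σ, c σ - c' σ = cobd b σ

/-- The singular cohomology `H^n(X; ℚ)`: cocycles modulo coboundaries. -/
def Coh (X : Type) [TopologicalSpace X] (n : ℕ) : Type :=
  Quot fun c c' : {c : Simplex X n → ℚ // IsCocycle c} => Cohomologous c.1 c'.1

lemma pull_cocycle {X Y : Type} [TopologicalSpace X] [TopologicalSpace Y] (f : C(X, Y)) {n : ℕ}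
    {c : Simplex Y n → ℚ} (hc : IsCocycle c) :
    IsCocycle (X := X) fun σ => c (ContinuousMap.comp f σ) :=
  fun σ => hc (ContinuousMap.comp f σ)

lemma pull_cohomologous {X Y : Type} [TopologicalSpace X] [TopologicalSpace Y] (f : C(X, Y)) :
    ∀ {n : ℕ} {c c' : Simplex Y n → ℚ}, Cohomologous c c' →
      Cohomologous (X := X) (fun σ => c (ContinuousMap.comp f σ))
        (fun σ => c' (ContinuousMap.comp f σ))
  | 0, _, _, h => by
    have h' : _ = _ := h
    subst h'
    exact (rfl : _ = _)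
  | _ + 1, _, _, ⟨b, hb⟩ => ⟨fun σ => b (ContinuousMap.comp f σ), fun σ => hb _⟩

/-- The pullback map in singular cohomology. -/
def cohMap {X Y : Type} [TopologicalSpace X] [TopologicalSpace Y] (f : C(X, Y)) (n : ℕ) :
    Coh Y n → Coh X n :=
  Quot.map (fun c => ⟨fun σ => c.1 (ContinuousMap.comp f σ), pull_cocycle f c.2⟩)
    fun _ _ h => pull_cohomologous f h

/-! The Borel construction for a group of unitary matrices. -/

variable {ι : Type} [Fintype ι] [DecidableEq ι]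

/-- The space of injective linear maps `T : ℂ^ι → ℂ^ℕ`, as matrices with rows indexed by `ℕ`, with
the topology of entrywise convergence. It is contractible, the unitary group acts freely on it by
`g • T = T g⁻¹`, and it is a model of the universal bundle. -/
def EU (ι : Type) [Fintype ι] : Type :=
  {T : ℕ → ι → ℂ // ∀ v : ι → ℂ, (∀ n, T n ⬝ᵥ v = 0) → v = 0}

instance : TopologicalSpace (EU ι) := instTopologicalSpaceSubtype

lemma EU_smul_inj (g : Matrix.unitaryGroup ι ℂ) (T : EU ι) (v : ι → ℂ)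
    (h : ∀ n, (T.1 n ᵥ* (g⁻¹).1) ⬝ᵥ v = 0) : v = 0 := by
  have h1 : (g⁻¹).1 *ᵥ v = 0 := T.2 _ fun n => by rw [Matrix.dotProduct_mulVec]; exact h n
  have h2 : g.1 *ᵥ ((g⁻¹).1 *ᵥ v) = v := by
    rw [Matrix.mulVec_mulVec, ← Matrix.UnitaryGroup.mul_val, mul_inv_cancel]
    exact Matrix.one_mulVec v
  rw [← h2, h1, Matrix.mulVec_zero]

/-- `g • T = T g⁻¹`. -/
def actE (g : Matrix.unitaryGroup ι ℂ) (T : EU ι) : EU ι :=
  ⟨fun n => T.1 n ᵥ* (g⁻¹).1, EU_smul_inj g T⟩

/-- The cotangent bundle `T^*A = A × A^*` of `A = ℂ^ι`; covectors are row vectors. -/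
def TA (ι : Type) : Type := (ι → ℂ) × (ι → ℂ)

instance : TopologicalSpace (TA ι) := instTopologicalSpaceProd

/-- The action of the unitary group on `T^*A`: `g • (a, b) = (g a, b g⁻¹)`. -/
def actA (g : Matrix.unitaryGroup ι ℂ) (p : TA ι) : TA ι := (g.1 *ᵥ p.1, p.2 ᵥ* (g⁻¹).1)

/-- The homotopy quotient (Borel construction) `EU ×_G S` of a `G`-invariant subspace `S` of
`T^*A`: the quotient of `EU × S` by the diagonal action of `G`. -/
def Borel (G : Subgroup (Matrix.unitaryGroup ι ℂ)) (S : Set (TA ι)) : Type :=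
  Quot fun p q : EU ι × S => ∃ g ∈ G, q.1 = actE g p.1 ∧ (q.2 : TA ι) = actA g p.2

instance (G : Subgroup (Matrix.unitaryGroup ι ℂ)) (S : Set (TA ι)) :
    TopologicalSpace (Borel G S) := instTopologicalSpaceQuot

lemma incl_continuous {S₁ S₂ : Set (TA ι)} (h : S₁ ⊆ S₂) :
    Continuous fun p : EU ι × S₁ => ((p.1, ⟨p.2.1, h p.2.2⟩) : EU ι × S₂) :=
  continuous_fst.prodMk ((continuous_subtype_val.comp continuous_snd).subtype_mk _)

/-- The map of Borel constructions induced by an inclusion `S₁ ⊆ S₂`. -/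
def borelIncl (G : Subgroup (Matrix.unitaryGroup ι ℂ)) {S₁ S₂ : Set (TA ι)} (h : S₁ ⊆ S₂) :
    C(Borel G S₁, Borel G S₂) where
  toFun := Quot.map (fun p => (p.1, ⟨p.2.1, h p.2.2⟩)) fun _ _ h => h
  continuous_toFun := continuous_quot_lift _ (continuous_quot_mk.comp (incl_continuous h))

/-! The flat hyperkahler structure of `T^*A` and the 3-Sasakian structure of its unit sphere. -/

/-- The flat metric: the real part of the standard hermitian product. -/
def gR (u v : TA ι) : ℝ := (star u.1 ⬝ᵥ v.1 + star u.2 ⬝ᵥ v.2).re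

/-- The complex structure `I (a, b) = (√-1 a, √-1 b)`. -/
def opI (u : TA ι) : TA ι := (fun i => Complex.I * u.1 i, fun i => Complex.I * u.2 i)

/-- The complex structure `J (a, b) = (- b^*, a^*)`. -/
def opJ (u : TA ι) : TA ι := (fun i => -star (u.2 i), fun i => star (u.1 i))

/-- The three complex structures `I`, `J`, `K = I J`. -/
def cs (a : Fin 3) (u : TA ι) : TA ι :=
  if a = 0 then opI u else if a = 1 then opJ u else opI (opJ u)

/-- The unit sphere `S^{4n-1}` of the flat hyperkahler space `T^*A`, `n = dim A`. Its metric cone is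
`T^*A` minus the origin, so it is a compact 3-Sasakian manifold; the Reeb fields are
`ξ_a (p) = I_a p`. -/
def sph (ι : Type) [Fintype ι] : Set (TA ι) := {p | gR p p = 1}

/-- The Lie algebra of `G`, as the set of velocities at `1` of curves in `G` through `1`
(matrices `X` that are derivatives at `0`, entry by entry, of curves in `G`). -/
def lieAlg (G : Subgroup (Matrix.unitaryGroup ι ℂ)) : Set (Matrix ι ι ℂ) :=
  {X | ∃ γ : ℝ → Matrix.unitaryGroup ι ℂ, (∀ s, γ s ∈ G) ∧ γ 0 = 1 ∧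
    ∀ i j, HasDerivAt (fun s => (γ s).1 i j) (X i j) 0}

/-- The vector field on `T^*A` generated by `X` in the Lie algebra; it is tangent to the sphere. -/
def inf (X : Matrix ι ι ℂ) (p : TA ι) : TA ι := (X *ᵥ p.1, -(p.2 ᵥ* X))

/-- `G` acts by automorphisms of the 3-Sasakian structure: the linear extension of the action to
the cone preserves the metric and the three complex structures. -/
def IsAutomorphic (G : Subgroup (Matrix.unitaryGroup ι ℂ)) : Prop :=
  (∀ g ∈ G, ∀ u v : TA ι, gR (actA g u) (actA g v) = gR u v) ∧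
  (∀ g ∈ G, ∀ a, ∀ u : TA ι, actA g (cs a u) = cs a (actA g u))

/-- The component along `X` of the 3-Sasakian moment map,
`⟨μ_a (p), X⟩ = (1/2) η_a (X p) = (1/2) g (I_a p, X p)`. -/
def moment (a : Fin 3) (X : Matrix ι ι ℂ) (p : TA ι) : ℝ := gR (cs a p) (inf X p) / 2

/-- The zero level set of the 3-Sasakian moment map on the unit sphere. -/
def zeroLevel (G : Subgroup (Matrix.unitaryGroup ι ℂ)) : Set (TA ι) :=
  {p | p ∈ sph ι ∧ ∀ a, ∀ X ∈ lieAlg G, moment a X p = 0}

lemma zeroLevel_subset (G : Subgroup (Matrix.unitaryGroup ι ℂ)) : zeroLevel G ⊆ sph ι :=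
  fun _ h => h.1

/-- `e` is an orthonormal basis of the Lie algebra for the invariant inner product
`⟨X, Y⟩ = Re tr (X Y^*)`; so the dimension of `G` is `d`. -/
def IsOrthonormalBasis (G : Subgroup (Matrix.unitaryGroup ι ℂ)) {d : ℕ}
    (e : Fin d → Matrix ι ι ℂ) : Prop :=
  (∀ j, e j ∈ lieAlg G) ∧ (∀ j k, (e j * (e k)ᴴ).trace.re = if j = k then 1 else 0) ∧
    ∀ X ∈ lieAlg G, ∃ c : Fin d → ℝ, X = ∑ j, c j • e j

/-- The 3-Sasakian Kirwan map in degree `k`: restriction from `H^k_G(S; ℚ)` to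
`H^k_G(μ⁻¹(0); ℚ)`, where `S` is the unit sphere. -/
def kirwan (G : Subgroup (Matrix.unitaryGroup ι ℂ)) (k : ℕ) :
    Coh (Borel G (sph ι)) k → Coh (Borel G (zeroLevel G)) k :=
  cohMap (borelIncl G (zeroLevel_subset G)) k

/-! Moment map computations. -/

/-- The real moment map `(√-1 / 2) (a^* X a - b X b^*)`. -/
def muR (X : Matrix ι ι ℂ) (p : TA ι) : ℝ :=
  (Complex.I / 2 * (star p.1 ⬝ᵥ (X *ᵥ p.1) - p.2 ⬝ᵥ (X *ᵥ star p.2))).re

/-- The complex moment map `b X a`. -/
def muC (X : Matrix ι ι ℂ) (p : TA ι) : ℂ := p.2 ⬝ᵥ (X *ᵥ p.1)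

lemma moment_zero (X : Matrix ι ι ℂ) (p : TA ι) : moment 0 X p = -muR X p := by
  have e1 : star (opI p).1 ⬝ᵥ (inf X p).1 = -Complex.I * (star p.1 ⬝ᵥ (X *ᵥ p.1)) := by
    have : star (opI p).1 = (-Complex.I) • star p.1 := by
      funext i
      show star (Complex.I * p.1 i) = (-Complex.I) * star (p.1 i)
      rw [star_mul', Complex.star_def, Complex.conj_I]
    rw [this, smul_dotProduct, smul_eq_mul]
    rfl
  have e2 : star (opI p).2 ⬝ᵥ (inf X p).2 = Complex.I * (p.2 ⬝ᵥ (X *ᵥ star p.2)) := by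
    have : star (opI p).2 = (-Complex.I) • star p.2 := by
      funext i
      show star (Complex.I * p.2 i) = (-Complex.I) * star (p.2 i)
      rw [star_mul', Complex.star_def, Complex.conj_I]
    show star (opI p).2 ⬝ᵥ (-(p.2 ᵥ* X)) = _
    rw [this, smul_dotProduct, smul_eq_mul, dotProduct_neg, Matrix.dotProduct_mulVec,
      dotProduct_comm (p.2 ᵥ* X)]
    ring
  show gR (opI p) (inf X p) / 2 = _
  rw [gR, e1, e2, muR]
  generalize star p.1 ⬝ᵥ (X *ᵥ p.1) = z1
  generalize p.2 ⬝ᵥ (X *ᵥ star p.2) = z2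
  simp [Complex.mul_re]
  ring

lemma moment_one (X : Matrix ι ι ℂ) (p : TA ι) : moment 1 X p = -(muC X p).re := by
  have e1 : star (opJ p).1 ⬝ᵥ (inf X p).1 = -(p.2 ⬝ᵥ (X *ᵥ p.1)) := by
    have : star (opJ p).1 = -p.2 := by
      funext i
      show star (-star (p.2 i)) = -(p.2 i)
      simp
    rw [this, neg_dotProduct]
    rfl
  have e2 : star (opJ p).2 ⬝ᵥ (inf X p).2 = -(p.2 ⬝ᵥ (X *ᵥ p.1)) := by
    have : star (opJ p).2 = p.1 := by
      funext i
      show star (star (p.1 i)) = p.1 i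
      simp
    show star (opJ p).2 ⬝ᵥ (-(p.2 ᵥ* X)) = _
    rw [this, dotProduct_neg, Matrix.dotProduct_mulVec, dotProduct_comm (p.2 ᵥ* X)]
  show gR (opJ p) (inf X p) / 2 = _
  rw [gR, e1, e2, muC]
  simp

lemma moment_two (X : Matrix ι ι ℂ) (p : TA ι) : moment 2 X p = -(muC X p).im := by
  have e1 : star (opI (opJ p)).1 ⬝ᵥ (inf X p).1 = Complex.I * (p.2 ⬝ᵥ (X *ᵥ p.1)) := by
    have : star (opI (opJ p)).1 = Complex.I • p.2 := by
      funext i
      show star (Complex.I * (-star (p.2 i))) = Complex.I * (p.2 i)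
      rw [star_mul', Complex.star_def, Complex.conj_I]
      simp
    rw [this, smul_dotProduct]
    rfl
  have e2 : star (opI (opJ p)).2 ⬝ᵥ (inf X p).2 = Complex.I * (p.2 ⬝ᵥ (X *ᵥ p.1)) := by
    have : star (opI (opJ p)).2 = (-Complex.I) • p.1 := by
      funext i
      show star (Complex.I * star (p.1 i)) = (-Complex.I) * p.1 i
      rw [star_mul', Complex.star_def, Complex.conj_I]
      simp
    show star (opI (opJ p)).2 ⬝ᵥ (-(p.2 ᵥ* X)) = _
    rw [this, smul_dotProduct, smul_eq_mul, dotProduct_neg, Matrix.dotProduct_mulVec,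
      dotProduct_comm (p.2 ᵥ* X)]
    ring
  show gR (opI (opJ p)) (inf X p) / 2 = _
  rw [gR, e1, e2, muC]
  simp

lemma inv_val_star (g : Matrix.unitaryGroup ι ℂ) : (g⁻¹).1 = (g.1)ᴴ := rfl

lemma gR_actA (g : Matrix.unitaryGroup ι ℂ) (u v : TA ι) : gR (actA g u) (actA g v) = gR u v := by
  have h1 : (g.1)ᴴ * g.1 = 1 := Matrix.mem_unitaryGroup_iff'.1 g.2
  rw [gR, gR]
  show (star (g.1 *ᵥ u.1) ⬝ᵥ (g.1 *ᵥ v.1)
    + star (u.2 ᵥ* (g.1)ᴴ) ⬝ᵥ (v.2 ᵥ* (g.1)ᴴ)).re = _
  congr 2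
  · rw [Matrix.star_mulVec, ← Matrix.dotProduct_mulVec, Matrix.mulVec_mulVec, h1,
      Matrix.one_mulVec]
  · rw [Matrix.star_vecMul, Matrix.conjTranspose_conjTranspose, dotProduct_comm,
      ← Matrix.dotProduct_mulVec, Matrix.mulVec_mulVec, h1, Matrix.one_mulVec, dotProduct_comm]

lemma actA_opI (g : Matrix.unitaryGroup ι ℂ) (u : TA ι) : actA g (opI u) = opI (actA g u) := by
  apply Prod.ext
  · show g.1 *ᵥ (Complex.I • u.1) = Complex.I • (g.1 *ᵥ u.1)
    rw [Matrix.mulVec_smul]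
  · show (Complex.I • u.2) ᵥ* (g⁻¹).1 = Complex.I • (u.2 ᵥ* (g⁻¹).1)
    rw [Matrix.smul_vecMul]

lemma actA_opJ (g : Matrix.unitaryGroup ι ℂ) (u : TA ι) : actA g (opJ u) = opJ (actA g u) := by
  apply Prod.ext
  · show g.1 *ᵥ (-star u.2) = -star (u.2 ᵥ* (g.1)ᴴ)
    rw [Matrix.star_vecMul, Matrix.conjTranspose_conjTranspose, Matrix.mulVec_neg]
  · show star u.1 ᵥ* (g.1)ᴴ = star (g.1 *ᵥ u.1)
    rw [Matrix.star_mulVec]

lemma actA_cs (g : Matrix.unitaryGroup ι ℂ) (a : Fin 3) (u : TA ι) :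
    actA g (cs a u) = cs a (actA g u) := by
  unfold cs
  split_ifs
  · exact actA_opI g u
  · exact actA_opJ g u
  · rw [actA_opI, actA_opJ]

/-! A criterion for failure of surjectivity in degree zero. -/

lemma pos_iff_of_ne_zero {Y : Type} [TopologicalSpace Y] [PreconnectedSpace Y] (f : Y → ℝ)
    (hf : Continuous f) (hne : ∀ y, f y ≠ 0) (a b : Y) (ha : 0 < f a) : 0 < f b := by
  by_contra hb
  obtain ⟨y, hy⟩ := mem_range_of_exists_le_of_exists_ge hf ⟨b, not_lt.1 hb⟩ ⟨a, ha.le⟩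
  exact hne y hy

instance : PreconnectedSpace (stdSimplex ℝ (Fin 2)) :=
  isPreconnected_iff_preconnectedSpace.1 (isPathConnected_stdSimplex (Fin 2)).isConnected.isPreconnected

lemma map_succAbove (i : Fin 2) (s : stdSimplex ℝ (Fin 1)) :
    stdSimplex.map i.succAbove s = stdSimplex.vertex (S := ℝ) (i.succAbove 0) := by
  have : s = stdSimplex.vertex (S := ℝ) (0 : Fin 1) := Subsingleton.elim _ _
  rw [this, stdSimplex.map_vertex]

lemma not_surjective_zero (G : Subgroup (Matrix.unitaryGroup ι ℂ)) (S S₂ : Set (TA ι))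
    (hSS : S ⊆ S₂) (N : TA ι → ℝ) (hN : Continuous N) (hinv : ∀ g ∈ G, ∀ p, N (actA g p) = N p)
    (hne : ∀ s ∈ S, N s ≠ 0) (x y : TA ι) (hxS : x ∈ S) (hyS : y ∈ S) (hx : N x < 0)
    (hy : 0 < N y) (γ : C(ℝ, TA ι)) (hγ : ∀ t, γ t ∈ S₂) (h0 : γ 0 = x) (h1 : γ 1 = y) (e : EU ι) :
    ¬ Function.Surjective (cohMap (borelIncl G hSS) 0) := by
  intro hsurj
  let Nb : Borel G S → ℝ := Quot.lift (fun p : EU ι × S => N p.2) (by
    rintro p q ⟨g, hg, -, h2⟩
    show N p.2 = N q.2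
    rw [h2]
    exact (hinv g hg p.2).symm)
  have hNb : Continuous Nb :=
    continuous_quot_lift _ (hN.comp (continuous_subtype_val.comp continuous_snd))
  have hNb0 : ∀ z, Nb z ≠ 0 := by
    intro z
    induction z using Quot.ind with
    | mk p => exact hne p.2 p.2.2
  let c : Simplex (Borel G S) 0 → ℚ :=
    fun σ => if 0 < Nb ((show C(stdSimplex ℝ (Fin 1), Borel G S) from σ) default) then 1 else 0
  have hc : IsCocycle c := by
    intro τ
    let τ' : C(stdSimplex ℝ (Fin 2), Borel G S) := τ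
    have key : c (face (0 : Fin 2) τ) = c (face (1 : Fin 2) τ) := by
      have hcont : Continuous fun t => Nb (τ' t) := hNb.comp τ'.continuous
      have hiff : ∀ a b : stdSimplex ℝ (Fin 2), 0 < Nb (τ' a) → 0 < Nb (τ' b) := fun a b =>
        pos_iff_of_ne_zero (fun t => Nb (τ' t)) hcont (fun t => hNb0 _) a b
      by_cases h : 0 < Nb (τ' (stdSimplex.map (Fin.succAbove (0 : Fin 2)) default))
      · exact (if_pos h).trans (if_pos (hiff _ _ h)).symm
      · exact (if_neg h).trans (if_neg fun h' => h (hiff _ _ h')).symm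
    show ∑ i : Fin (0 + 2), (-1 : ℚ) ^ (i : ℕ) * c (face i τ) = 0
    rw [Fin.sum_univ_two]
    simp only [Fin.val_zero, pow_zero, one_mul, Fin.val_one, pow_one]
    rw [key]
    ring
  obtain ⟨w, hw⟩ := hsurj (Quot.mk _ ⟨c, hc⟩)
  obtain ⟨h, rfl⟩ := Quot.exists_rep w
  have h3 : (Quot.mk _ ⟨fun σ => h.1 (ContinuousMap.comp (borelIncl G hSS) σ),
      pull_cocycle (borelIncl G hSS) h.2⟩ : Coh (Borel G S) 0) = Quot.mk _ ⟨c, hc⟩ := hw
  have h5 : ∀ σ : Simplex (Borel G S) 0, h.1 (ContinuousMap.comp (borelIncl G hSS) σ) = c σ := by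
    let ev : Coh (Borel G S) 0 → (Simplex (Borel G S) 0 → ℚ) :=
      Quot.lift (fun c => c.1) fun _ _ h => h
    intro σ
    exact congrFun (congrArg ev h3) σ
  let pt : (s : TA ι) → s ∈ S → Simplex (Borel G S) 0 := fun s hs =>
    ContinuousMap.const _ (Quot.mk _ (e, ⟨s, hs⟩))
  let τ : C(stdSimplex ℝ (Fin 2), Borel G S₂) :=
    ⟨fun t => Quot.mk _ (e, ⟨γ (t 1), hγ _⟩), by
      refine continuous_quot_mk.comp (continuous_const.prodMk
        ((γ.continuous.comp ?_).subtype_mk _))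
      exact (continuous_apply 1).comp continuous_subtype_val⟩
  have hτ := h.2 (show Simplex (Borel G S₂) (0 + 1) from τ)
  have hτ' : ∑ i : Fin (0 + 2), (-1 : ℚ) ^ (i : ℕ) * h.1 (face i
    (show Simplex (Borel G S₂) (0 + 1) from τ)) = 0 := hτ
  rw [Fin.sum_univ_two] at hτ'
  have f0 : face (0 : Fin 2) (show Simplex (Borel G S₂) (0 + 1) from τ)
      = ContinuousMap.comp (borelIncl G hSS) (pt y hyS) := by
    apply ContinuousMap.ext
    intro s
    show (Quot.mk _ (e, ⟨γ ((stdSimplex.map (Fin.succAbove (0 : Fin 2)) s) 1), hγ _⟩) :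
      Borel G S₂) = Quot.mk _ (e, ⟨y, hSS hyS⟩)
    have : (stdSimplex.map (Fin.succAbove (0 : Fin 2)) s) 1 = (1 : ℝ) := by
      rw [map_succAbove]
      simp
    rw [this]
    congr 3
  have f1 : face (1 : Fin 2) (show Simplex (Borel G S₂) (0 + 1) from τ)
      = ContinuousMap.comp (borelIncl G hSS) (pt x hxS) := by
    apply ContinuousMap.ext
    intro s
    show (Quot.mk _ (e, ⟨γ ((stdSimplex.map (Fin.succAbove (1 : Fin 2)) s) 1), hγ _⟩) :
      Borel G S₂) = Quot.mk _ (e, ⟨x, hSS hxS⟩)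
    have : (stdSimplex.map (Fin.succAbove (1 : Fin 2)) s) 1 = (0 : ℝ) := by
      rw [map_succAbove]
      simp
    rw [this]
    congr 3
  rw [f0, f1, h5, h5] at hτ'
  have cy : c (pt y hyS) = 1 := if_pos hy
  have cx : c (pt x hxS) = 0 := if_neg (not_lt.2 hx.le)
  rw [cy, cx] at hτ'
  simp at hτ'

/-! The example: `SU(2)` acting diagonally on `ℂ² ⊕ ℂ²`, that is, `Sp(1)` acting on `ℍ⁴`. -/

/-- The embedding of `SU(2)` in `U(4)`: `g` acts on `ℂ² ⊕ ℂ²` by `(g, g)`. -/
def emb : Matrix.specialUnitaryGroup (Fin 2) ℂ →* Matrix.unitaryGroup (Fin 2 ⊕ Fin 2) ℂ where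
  toFun p := ⟨Matrix.fromBlocks p.1 0 0 p.1, by
    have h1 : p.1 * star p.1 = 1 :=
      Matrix.mem_unitaryGroup_iff.1 (Matrix.mem_specialUnitaryGroup_iff.1 p.2).1
    rw [Matrix.mem_unitaryGroup_iff, Matrix.star_eq_conjTranspose, Matrix.fromBlocks_conjTranspose,
      Matrix.fromBlocks_multiply]
    rw [Matrix.star_eq_conjTranspose] at h1
    simp only [Matrix.conjTranspose_zero, Matrix.mul_zero, Matrix.zero_mul, add_zero, zero_add, h1,
      Matrix.fromBlocks_one]⟩
  map_one' := by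
    apply Subtype.ext
    show Matrix.fromBlocks (1 : Matrix (Fin 2) (Fin 2) ℂ) 0 0 1 = 1
    simp
  map_mul' p q := by
    apply Subtype.ext
    show Matrix.fromBlocks (p.1 * q.1) 0 0 (p.1 * q.1)
      = Matrix.fromBlocks p.1 0 0 p.1 * Matrix.fromBlocks q.1 0 0 q.1
    rw [Matrix.fromBlocks_multiply]
    simp

/-- The group `G ≅ SU(2) ≅ Sp(1)`. -/
def G0 : Subgroup (Matrix.unitaryGroup (Fin 2 ⊕ Fin 2) ℂ) := emb.range

/-- The element of `SU(2)` with first row `(α, β)`. -/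
def su (α β : ℂ) (h : α * star α + β * star β = 1) : Matrix.specialUnitaryGroup (Fin 2) ℂ :=
  ⟨!![α, β; -star β, star α], by
    rw [Matrix.mem_specialUnitaryGroup_iff, Matrix.mem_unitaryGroup_iff,
      Matrix.star_eq_conjTranspose]
    constructor
    · ext i j
      fin_cases i <;> fin_cases j <;>
        simp [Matrix.mul_apply, Fin.sum_univ_two, Matrix.conjTranspose_apply] <;>
        simp only [Complex.star_def] at h <;> first | ring1 | linear_combination h
    · rw [Matrix.det_fin_two_of]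
      linear_combination h⟩

lemma su_one (h : (1 : ℂ) * star 1 + 0 * star 0 = 1) : su 1 0 h = 1 := by
  apply Subtype.ext
  show !![(1 : ℂ), 0; -star 0, star 1] = 1
  ext i j
  fin_cases i <;> fin_cases j <;> simp

lemma su_surj (p : Matrix.specialUnitaryGroup (Fin 2) ℂ) :
    ∃ (α β : ℂ) (h : α * star α + β * star β = 1), p = su α β h := by
  obtain ⟨h, hh⟩ := p
  obtain ⟨hh1, hh2⟩ := Matrix.mem_specialUnitaryGroup_iff.1 hh
  have h1 : h * hᴴ = 1 := Matrix.mem_unitaryGroup_iff.1 hh1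
  have h2 : h * h.adjugate = 1 := by rw [Matrix.mul_adjugate, hh2, one_smul]
  have h3 : hᴴ = h.adjugate := by
    have h4 : h.adjugate * h = 1 := _root_.mul_eq_one_comm.1 h2
    calc hᴴ = (h.adjugate * h) * hᴴ := by rw [h4, one_mul]
      _ = h.adjugate := by rw [Matrix.mul_assoc, h1, mul_one]
  have a1 : h 1 0 = -star (h 0 1) := by
    have := congrFun (congrFun h3 1) 0
    rw [Matrix.adjugate_fin_two, Matrix.conjTranspose_apply] at this
    simp at this
    rw [Complex.star_def, this]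
    ring
  have a2 : h 1 1 = star (h 0 0) := by
    have := congrFun (congrFun h3 0) 0
    rw [Matrix.adjugate_fin_two, Matrix.conjTranspose_apply] at this
    simpa using this.symm
  have e00 := congrFun (congrFun h1 0) 0
  simp only [Matrix.mul_apply, Fin.sum_univ_two, Matrix.conjTranspose_apply,
    Matrix.one_apply_eq] at e00
  refine ⟨h 0 0, h 0 1, e00, ?_⟩
  apply Subtype.ext
  show h = !![h 0 0, h 0 1; -star (h 0 1), star (h 0 0)]
  ext i j
  fin_cases i <;> fin_cases j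
  · rfl
  · rfl
  · exact a1
  · exact a2

lemma mem_G0 {u : Matrix.unitaryGroup (Fin 2 ⊕ Fin 2) ℂ} (hu : u ∈ G0) :
    ∃ (α β : ℂ), α * star α + β * star β = 1 ∧
      u.1 = Matrix.fromBlocks !![α, β; -star β, star α] 0 0 !![α, β; -star β, star α] := by
  obtain ⟨p, rfl⟩ := hu
  obtain ⟨α, β, h, rfl⟩ := su_surj p
  exact ⟨α, β, h, rfl⟩

lemma hasDerivAt_cexp : HasDerivAt (fun s : ℝ => Complex.exp (s * Complex.I)) Complex.I 0 := by
  have := ((Complex.ofRealCLM.hasDerivAt (x := (0 : ℝ))).mul_const Complex.I).cexp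
  simpa using this

lemma hasDerivAt_cos : HasDerivAt (fun s : ℝ => (Real.cos s : ℂ)) 0 0 := by
  have := (Real.hasDerivAt_cos 0).ofReal_comp
  simpa using this

lemma hasDerivAt_sin : HasDerivAt (fun s : ℝ => (Real.sin s : ℂ)) 1 0 := by
  have := (Real.hasDerivAt_sin 0).ofReal_comp
  simpa using this

lemma mem_lieAlg_of_su2 (M : ℝ → Matrix.specialUnitaryGroup (Fin 2) ℂ) (h0 : M 0 = 1)
    (Y : Matrix (Fin 2) (Fin 2) ℂ) (hY : ∀ i j, HasDerivAt (fun s => (M s).1 i j) (Y i j) 0) :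
    Matrix.fromBlocks Y 0 0 Y ∈ lieAlg G0 := by
  refine ⟨fun s => emb (M s), fun s => ⟨_, rfl⟩, by simp [h0], ?_⟩
  have hval : ∀ s i j, (emb (M s)).1 i j = Matrix.fromBlocks (M s).1 0 0 (M s).1 i j :=
    fun _ _ _ => rfl
  rintro (i | i) (j | j)
  · simp only [hval, Matrix.fromBlocks_apply₁₁]
    exact hY i j
  · simp only [hval, Matrix.fromBlocks_apply₁₂]
    exact hasDerivAt_const _ _
  · simp only [hval, Matrix.fromBlocks_apply₂₁]
    exact hasDerivAt_const _ _
  · simp only [hval, Matrix.fromBlocks_apply₂₂]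
    exact hY i j

lemma mem_lieAlg_D : Matrix.fromBlocks !![Complex.I, 0; 0, -Complex.I] 0 0
    !![Complex.I, 0; 0, -Complex.I] ∈ lieAlg G0 := by
  have hs : ∀ s : ℝ, Complex.exp (s * Complex.I) * star (Complex.exp (s * Complex.I))
      + 0 * star 0 = 1 := by
    intro s
    rw [Complex.star_def, Complex.mul_conj, Complex.normSq_eq_norm_sq,
      Complex.norm_exp_ofReal_mul_I]
    simp
  apply mem_lieAlg_of_su2 (fun s => su (Complex.exp (s * Complex.I)) 0 (hs s))
  · rw [← su_one (by simp)]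
    congr 1
    simp
  · intro i j
    have h := hasDerivAt_cexp
    fin_cases i <;> fin_cases j
    · simpa [su] using h
    · simpa [su] using hasDerivAt_const (0 : ℝ) (0 : ℂ)
    · simpa [su] using hasDerivAt_const (0 : ℝ) (0 : ℂ)
    · have h2 := (Complex.conjCLE.toContinuousLinearMap.hasFDerivAt.comp_hasDerivAt (0 : ℝ) h)
      simpa [su, Function.comp_def] using h2

lemma mem_lieAlg_R : Matrix.fromBlocks !![(0 : ℂ), 1; -1, 0] 0 0 !![(0 : ℂ), 1; -1, 0] ∈ lieAlg G0 := by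
  have hs : ∀ s : ℝ, (Real.cos s : ℂ) * star (Real.cos s : ℂ) + (Real.sin s : ℂ) * star (Real.sin s : ℂ) = 1 := by
    intro s
    rw [Complex.star_def, Complex.conj_ofReal, Complex.conj_ofReal]
    norm_cast
    nlinarith [Real.cos_sq_add_sin_sq s]
  apply mem_lieAlg_of_su2 (fun s => su (Real.cos s) (Real.sin s) (hs s))
  · rw [← su_one (by simp)]
    congr 1 <;> simp
  · intro i j
    fin_cases i <;> fin_cases j
    · simpa [su] using hasDerivAt_cos
    · simpa [su] using hasDerivAt_sin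
    · simpa [su, ← Complex.ofReal_sin, Complex.conj_ofReal, -Complex.ofReal_sin] using hasDerivAt_sin.fun_neg
    · simpa [su, ← Complex.ofReal_cos, Complex.conj_ofReal, -Complex.ofReal_cos] using hasDerivAt_cos

lemma mem_lieAlg_S : Matrix.fromBlocks !![(0 : ℂ), Complex.I; Complex.I, 0] 0 0
    !![(0 : ℂ), Complex.I; Complex.I, 0] ∈ lieAlg G0 := by
  have hs : ∀ s : ℝ, (Real.cos s : ℂ) * star (Real.cos s : ℂ)
      + (Real.sin s * Complex.I : ℂ) * star (Real.sin s * Complex.I : ℂ) = 1 := by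
    intro s
    have h1 : star (Real.sin s * Complex.I : ℂ) = - (Real.sin s * Complex.I) := by
      rw [Complex.star_def, map_mul, Complex.conj_ofReal, Complex.conj_I]
      ring
    rw [h1, Complex.star_def, Complex.conj_ofReal]
    have h2 : (Real.cos s : ℂ) ^ 2 + (Real.sin s : ℂ) ^ 2 = 1 := by
      norm_cast
      exact Real.cos_sq_add_sin_sq s
    linear_combination h2 - (Real.sin s : ℂ) ^ 2 * Complex.I_sq
  apply mem_lieAlg_of_su2 (fun s => su (Real.cos s) (Real.sin s * Complex.I) (hs s))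
  · rw [← su_one (by simp)]
    congr 1 <;> simp
  · intro i j
    fin_cases i <;> fin_cases j
    · simpa [su] using hasDerivAt_cos
    · simpa [su] using hasDerivAt_sin.mul_const Complex.I
    · simpa [su, ← Complex.ofReal_sin, Complex.conj_ofReal, -Complex.ofReal_sin] using hasDerivAt_sin.mul_const Complex.I
    · simpa [su, ← Complex.ofReal_cos, Complex.conj_ofReal, -Complex.ofReal_cos] using hasDerivAt_cos

/-- The algebra behind the description of the level set. -/
lemma alg_core (x1 x2 y1 y2 p1 p2 r1 r2 X1 X2 Y1 Y2 P1 P2 R1 R2 c : ℂ)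
    (E1 : x1 * p2 + y1 * r2 = 0) (E2 : x2 * p1 + y2 * r1 = 0)
    (E3 : x1 * p1 + y1 * r1 = x2 * p2 + y2 * r2)
    (E1' : X1 * P2 + Y1 * R2 = 0) (E2' : X2 * P1 + Y2 * R1 = 0)
    (E3' : X1 * P1 + Y1 * R1 = X2 * P2 + Y2 * R2)
    (E5 : x1 * X2 + y1 * Y2 - p2 * P1 - r2 * R1 = 0)
    (E5' : X1 * x2 + Y1 * y2 - P2 * p1 - R2 * r1 = 0)
    (E6 : x1 * X1 + y1 * Y1 - p1 * P1 - r1 * R1
      = x2 * X2 + y2 * Y2 - p2 * P2 - r2 * R2)
    (hc : x1 * X1 + y1 * Y1 + p2 * P2 + r2 * R2 = c) (hc0 : c ≠ 0) :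
    x1 * X1 + x2 * X2 + p1 * P1 + p2 * P2 = c ∧ y1 * Y1 + y2 * Y2 + r1 * R1 + r2 * R2 = c ∧
    X2 * p1 - X1 * p2 = 0 ∧ X1 * y1 + X2 * y2 + p2 * R2 + p1 * R1 = 0 ∧
    X2 * r1 - X1 * r2 + p1 * Y2 - p2 * Y1 = 0 := by
  let A : Matrix (Fin 4) (Fin 4) ℂ :=
    !![x1, y1, -p2, -r2; x2, y2, p1, r1; -P2, -R2, X1, Y1; P1, R1, X2, Y2]
  let B : Matrix (Fin 4) (Fin 4) ℂ :=
    !![X1, X2, -p2, p1; Y1, Y2, -r2, r1; -P2, P1, x1, x2; -R2, R1, y1, y2]
  have hAB : A * B = c • (1 : Matrix (Fin 4) (Fin 4) ℂ) := by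
    ext i j
    fin_cases i <;> fin_cases j <;>
      simp [A, B, Matrix.mul_apply, Fin.sum_univ_four] <;>
      first
      | linear_combination hc
      | linear_combination hc - E6
      | linear_combination E5
      | linear_combination E5'
      | linear_combination (-2) * E1
      | linear_combination (-2) * E1'
      | linear_combination 2 * E2
      | linear_combination 2 * E2'
      | linear_combination E3
      | linear_combination E3'
  have hBA : B * A = c • (1 : Matrix (Fin 4) (Fin 4) ℂ) := by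
    have h1 : A * (c⁻¹ • B) = 1 := by
      rw [Matrix.mul_smul, hAB, smul_smul, inv_mul_cancel₀ hc0, one_smul]
    have h2 := _root_.mul_eq_one_comm.1 h1
    rw [Matrix.smul_mul] at h2
    rw [← h2, smul_smul, mul_inv_cancel₀ hc0, one_smul]
  have e00 := congrFun (congrFun hBA 0) 0
  have e11 := congrFun (congrFun hBA 1) 1
  have e02 := congrFun (congrFun hBA 0) 2
  have e01 := congrFun (congrFun hBA 0) 1
  have e03 := congrFun (congrFun hBA 0) 3
  simp [A, B, Matrix.mul_apply, Fin.sum_univ_four] at e00 e11 e02 e01 e03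
  refine ⟨?_, ?_, ?_, ?_, ?_⟩
  · linear_combination e00
  · linear_combination e11
  · linear_combination e02 / 2
  · linear_combination e01
  · linear_combination e03

lemma aux_im (W : ℂ) : (Complex.I / 2 * (star W - W)).re = W.im := by
  simp [Complex.mul_re, Complex.div_re, Complex.div_im]
  ring

lemma aux_re (W : ℂ) : (Complex.I / 2 * (Complex.I * (star W + W))).re = -W.re := by
  simp [Complex.mul_re, Complex.div_re, Complex.div_im]
  ring

/-! Compactness and connectedness of `G0`. -/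

lemma su_cond (v : Metric.sphere (0 : EuclideanSpace ℂ (Fin 2)) 1) :
    v.1 0 * star (v.1 0) + v.1 1 * star (v.1 1) = 1 := by
  have h : ‖v.1‖ = 1 := by simp
  have h2 := EuclideanSpace.norm_sq_eq v.1
  rw [h, Fin.sum_univ_two] at h2
  rw [Complex.star_def, Complex.mul_conj, Complex.mul_conj,
    Complex.normSq_eq_norm_sq, Complex.normSq_eq_norm_sq]
  rw [← Complex.ofReal_add, ← h2]
  norm_num

/-- A continuous surjection from `S³` onto `G0`. -/
def psi (q : Metric.sphere (0 : EuclideanSpace ℂ (Fin 2)) 1) :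
    Matrix.unitaryGroup (Fin 2 ⊕ Fin 2) ℂ :=
  emb (su (q.1 0) (q.1 1) (su_cond q))

lemma psi_continuous : Continuous psi := by
  apply Continuous.subtype_mk
  show Continuous fun q : Metric.sphere (0 : EuclideanSpace ℂ (Fin 2)) 1 =>
    Matrix.fromBlocks !![q.1 0, q.1 1; -star (q.1 1), star (q.1 0)] 0 0
      !![q.1 0, q.1 1; -star (q.1 1), star (q.1 0)]
  have hM : Continuous fun q : Metric.sphere (0 : EuclideanSpace ℂ (Fin 2)) 1 =>
      !![q.1 0, q.1 1; -star (q.1 1), star (q.1 0)] := by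
    apply continuous_matrix
    intro i j
    fin_cases i <;> fin_cases j <;> simp <;> fun_prop
  exact Continuous.matrix_fromBlocks hM continuous_const continuous_const hM

lemma psi_range : Set.range psi = (G0 : Set (Matrix.unitaryGroup (Fin 2 ⊕ Fin 2) ℂ)) := by
  apply Set.Subset.antisymm
  · rintro _ ⟨q, rfl⟩
    exact ⟨_, rfl⟩
  · rintro _ ⟨p, rfl⟩
    obtain ⟨α, β, h, rfl⟩ := su_surj p
    have hn : ‖(WithLp.toLp 2 ![α, β] : EuclideanSpace ℂ (Fin 2))‖ = 1 := by
      have e00 := h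
      simp only [Complex.star_def, Complex.mul_conj, Complex.normSq_eq_norm_sq] at e00
      norm_cast at e00
      rw [EuclideanSpace.norm_eq, Fin.sum_univ_two]
      simp [e00]
    exact ⟨⟨WithLp.toLp 2 ![α, β], by simpa using hn⟩, rfl⟩

lemma G0_compact : IsCompact (G0 : Set (Matrix.unitaryGroup (Fin 2 ⊕ Fin 2) ℂ)) := by
  rw [← psi_range]
  exact isCompact_range psi_continuous

lemma G0_connected : IsConnected (G0 : Set (Matrix.unitaryGroup (Fin 2 ⊕ Fin 2) ℂ)) := by
  rw [← psi_range]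
  have h1 : ConnectedSpace (Metric.sphere (0 : EuclideanSpace ℂ (Fin 2)) 1) := by
    rw [← isConnected_iff_connectedSpace]
    apply isConnected_sphere
    · rw [← Module.finrank_eq_rank, finrank_real_of_complex]
      simp
    · norm_num
  exact isConnected_range psi_continuous




/-! The equations of the level set. -/

/-- The generators of `SU(2)`. -/
def gD : Matrix (Fin 2 ⊕ Fin 2) (Fin 2 ⊕ Fin 2) ℂ :=
  Matrix.fromBlocks !![Complex.I, 0; 0, -Complex.I] 0 0 !![Complex.I, 0; 0, -Complex.I]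

/-- The generators of `SU(2)`. -/
def gE : Matrix (Fin 2 ⊕ Fin 2) (Fin 2 ⊕ Fin 2) ℂ :=
  Matrix.fromBlocks !![(0 : ℂ), 1; -1, 0] 0 0 !![(0 : ℂ), 1; -1, 0]

/-- The generators of `SU(2)`. -/
def gS : Matrix (Fin 2 ⊕ Fin 2) (Fin 2 ⊕ Fin 2) ℂ :=
  Matrix.fromBlocks !![(0 : ℂ), Complex.I; Complex.I, 0] 0 0 !![(0 : ℂ), Complex.I; Complex.I, 0]

/-- The equations of the level set. -/
lemma level_eqs (p : TA (Fin 2 ⊕ Fin 2)) (hD1 : muR gD p = 0) (hD2 : muC gD p = 0)
    (hR1 : muR gE p = 0) (hR2 : muC gE p = 0) (hS1 : muR gS p = 0) (hS2 : muC gS p = 0) :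
    (p.1 (Sum.inl 0) * p.2 (Sum.inl 1) + p.1 (Sum.inr 0) * p.2 (Sum.inr 1) = 0) ∧
    (p.1 (Sum.inl 1) * p.2 (Sum.inl 0) + p.1 (Sum.inr 1) * p.2 (Sum.inr 0) = 0) ∧
    (p.1 (Sum.inl 0) * p.2 (Sum.inl 0) + p.1 (Sum.inr 0) * p.2 (Sum.inr 0)
      = p.1 (Sum.inl 1) * p.2 (Sum.inl 1) + p.1 (Sum.inr 1) * p.2 (Sum.inr 1)) ∧
    (p.1 (Sum.inl 0) * star (p.1 (Sum.inl 1)) + p.1 (Sum.inr 0) * star (p.1 (Sum.inr 1))
      - p.2 (Sum.inl 1) * star (p.2 (Sum.inl 0)) - p.2 (Sum.inr 1) * star (p.2 (Sum.inr 0)) = 0) ∧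
    (p.1 (Sum.inl 0) * star (p.1 (Sum.inl 0)) + p.1 (Sum.inr 0) * star (p.1 (Sum.inr 0))
      - p.2 (Sum.inl 0) * star (p.2 (Sum.inl 0)) - p.2 (Sum.inr 0) * star (p.2 (Sum.inr 0))
      = p.1 (Sum.inl 1) * star (p.1 (Sum.inl 1)) + p.1 (Sum.inr 1) * star (p.1 (Sum.inr 1))
      - p.2 (Sum.inl 1) * star (p.2 (Sum.inl 1)) - p.2 (Sum.inr 1) * star (p.2 (Sum.inr 1))) := by
  simp only [gD, gE, gS, muR, muC, dotProduct, Matrix.mulVec,
    Fintype.sum_sum_type, Fin.sum_univ_two, Matrix.fromBlocks_apply₁₁, Matrix.fromBlocks_apply₁₂,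
    Matrix.fromBlocks_apply₂₁, Matrix.fromBlocks_apply₂₂, Pi.star_apply,
    Matrix.of_apply, Matrix.cons_val', Matrix.cons_val_zero,
    Matrix.cons_val_one, Matrix.zero_apply, Matrix.smul_apply, Matrix.one_apply, smul_eq_mul,
    Matrix.cons_val_fin_one, zero_mul, add_zero, zero_add, mul_zero, if_true, reduceIte, mul_one,
    Fin.isValue, zero_ne_one, one_ne_zero, neg_mul, mul_neg] at hD1 hD2 hR1 hR2 hS1 hS2
  generalize p.1 (Sum.inl 0) = x1 at *
  generalize p.1 (Sum.inl 1) = x2 at *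
  generalize p.1 (Sum.inr 0) = y1 at *
  generalize p.1 (Sum.inr 1) = y2 at *
  generalize p.2 (Sum.inl 0) = p1 at *
  generalize p.2 (Sum.inl 1) = p2 at *
  generalize p.2 (Sum.inr 0) = r1 at *
  generalize p.2 (Sum.inr 1) = r2 at *
  have nn : ∀ z : ℂ, z * star z = ((‖z‖ ^ 2 : ℝ) : ℂ) := fun z => by
    rw [Complex.star_def, Complex.mul_conj, Complex.normSq_eq_norm_sq]
  have hI := Complex.I_mul_I
  have E3 : x1 * p1 + y1 * r1 = x2 * p2 + y2 * r2 := by
    linear_combination (-Complex.I) * hD2 + (x1 * p1 + y1 * r1 - x2 * p2 - y2 * r2) * hI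
  have hS2' : p1 * x2 + p2 * x1 + (r1 * y2 + r2 * y1) = 0 := by
    linear_combination (-Complex.I) * hS2 + (p1 * x2 + p2 * x1 + (r1 * y2 + r2 * y1)) * hI
  have E1 : x1 * p2 + y1 * r2 = 0 := by
    linear_combination (hS2' - hR2) / 2
  have E2 : x2 * p1 + y2 * r1 = 0 := by
    linear_combination (hS2' + hR2) / 2
  have E6 : x1 * star x1 + y1 * star y1 - p1 * star p1 - r1 * star r1
      = x2 * star x2 + y2 * star y2 - p2 * star p2 - r2 * star r2 := by
    have h1 : (Complex.I / 2 *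
        (star x1 * (Complex.I * x1) + -(star x2 * (Complex.I * x2)) +
            (star y1 * (Complex.I * y1) + -(star y2 * (Complex.I * y2))) -
          (p1 * (Complex.I * star p1) + -(p2 * (Complex.I * star p2)) +
            (r1 * (Complex.I * star r1) + -(r2 * (Complex.I * star r2))))))
        = ((-(‖x1‖ ^ 2 - ‖x2‖ ^ 2 + ‖y1‖ ^ 2 - ‖y2‖ ^ 2 - ‖p1‖ ^ 2 + ‖p2‖ ^ 2 - ‖r1‖ ^ 2
          + ‖r2‖ ^ 2) / 2 : ℝ) : ℂ) := by
      push_cast
      have e1 := nn x1
      have e2 := nn x2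
      have e3 := nn p1
      have e4 := nn p2
      have e5 := nn y1
      have e6 := nn y2
      have e7 := nn r1
      have e8 := nn r2
      push_cast at e1 e2 e3 e4 e5 e6 e7 e8
      rw [← e1, ← e2, ← e3, ← e4, ← e5, ← e6, ← e7, ← e8]
      linear_combination (x1 * star x1 - x2 * star x2 + y1 * star y1 - y2 * star y2
        - p1 * star p1 + p2 * star p2 - r1 * star r1 + r2 * star r2) / 2 * hI
    rw [h1, Complex.ofReal_re] at hD1
    simp only [nn]
    norm_cast
    linarith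
  have E5 : x1 * star x2 + y1 * star y2 - p2 * star p1 - r2 * star r1 = 0 := by
    set W : ℂ := x1 * star x2 + y1 * star y2 - p2 * star p1 - r2 * star r1 with hW
    have hWs : star W = star x1 * x2 + star y1 * y2 - star p2 * p1 - star r2 * r1 := by
      rw [hW]
      simp only [star_add, star_sub, star_mul', star_star]
    have h1 : Complex.I / 2 *
        (star x1 * (1 * x2) + -(star x2 * (1 * x1)) + (star y1 * (1 * y2) + -(star y2 * (1 * y1))) -
          (p1 * (1 * star p2) + -(p2 * (1 * star p1)) + (r1 * (1 * star r2) + -(r2 * (1 * star r1)))))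
        = Complex.I / 2 * (star W - W) := by
      rw [hWs, hW]
      ring
    have h2 : Complex.I / 2 *
        (star x1 * (Complex.I * x2) + star x2 * (Complex.I * x1) +
            (star y1 * (Complex.I * y2) + star y2 * (Complex.I * y1)) -
          (p1 * (Complex.I * star p2) + p2 * (Complex.I * star p1) +
            (r1 * (Complex.I * star r2) + r2 * (Complex.I * star r1))))
        = Complex.I / 2 * (Complex.I * (star W + W)) := by
      rw [hWs, hW]
      ring
    rw [h1, aux_im] at hR1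
    rw [h2, aux_re] at hS1
    apply Complex.ext
    · simpa using hS1
    · simpa using hR1
  exact ⟨E1, E2, E3, E5, E6⟩

/-- The `4 × 4` matrix of `p`: the four quaternion coordinates of `p` in an orthogonal basis of
`ℍ`. -/
def matA (p : TA (Fin 2 ⊕ Fin 2)) : Matrix (Fin 4) (Fin 4) ℂ :=
  !![p.1 (Sum.inl 0), p.1 (Sum.inr 0), -p.2 (Sum.inl 1), -p.2 (Sum.inr 1);
    p.1 (Sum.inl 1), p.1 (Sum.inr 1), p.2 (Sum.inl 0), p.2 (Sum.inr 0);
    -star (p.2 (Sum.inl 1)), -star (p.2 (Sum.inr 1)), star (p.1 (Sum.inl 0)),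
      star (p.1 (Sum.inr 0));
    star (p.2 (Sum.inl 0)), star (p.2 (Sum.inr 0)), star (p.1 (Sum.inl 1)),
      star (p.1 (Sum.inr 1))]

/-- The real determinant of the `4 × 4` matrix of `p`. -/
def sheet (p : TA (Fin 2 ⊕ Fin 2)) : ℝ := (matA p).det.re

lemma matA_continuous : Continuous matA := by
  have h : Continuous fun p : (Fin 2 ⊕ Fin 2 → ℂ) × (Fin 2 ⊕ Fin 2 → ℂ) =>
      !![p.1 (Sum.inl 0), p.1 (Sum.inr 0), -p.2 (Sum.inl 1), -p.2 (Sum.inr 1);
    p.1 (Sum.inl 1), p.1 (Sum.inr 1), p.2 (Sum.inl 0), p.2 (Sum.inr 0);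
    -star (p.2 (Sum.inl 1)), -star (p.2 (Sum.inr 1)), star (p.1 (Sum.inl 0)),
      star (p.1 (Sum.inr 0));
    star (p.2 (Sum.inl 0)), star (p.2 (Sum.inr 0)), star (p.1 (Sum.inl 1)),
      star (p.1 (Sum.inr 1))] := by
    apply continuous_matrix
    intro i j
    fin_cases i <;> fin_cases j <;> simp <;> fun_prop
  exact h

lemma sheet_continuous : Continuous sheet :=
  Complex.continuous_re.comp matA_continuous.matrix_det

/-- The matrix of the action of an element of `SU(2)`. -/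
def matD (α β : ℂ) : Matrix (Fin 4) (Fin 4) ℂ :=
  !![α, β, 0, 0; -star β, star α, 0, 0; 0, 0, star α, star β; 0, 0, -β, α]

lemma matD_det (α β : ℂ) (h : α * star α + β * star β = 1) : (matD α β).det = 1 := by
  have : (matD α β).det = (α * star α + β * star β) ^ 2 := by
    simp [matD, Matrix.det_succ_row_zero, Fin.sum_univ_succ, Fin.succAbove]
    ring
  rw [this, h, one_pow]

lemma matA_act {u : Matrix.unitaryGroup (Fin 2 ⊕ Fin 2) ℂ} {α β : ℂ}
    (hval : u.1 = Matrix.fromBlocks !![α, β; -star β, star α] 0 0 !![α, β; -star β, star α])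
    (p : TA (Fin 2 ⊕ Fin 2)) : matA (actA u p) = matD α β * matA p := by
  have h3 : (u⁻¹).1 = (u.1)ᴴ := rfl
  have c1 : ∀ i, (u.1 *ᵥ p.1) (Sum.inl i) = !![α, β; -star β, star α] i 0 * p.1 (Sum.inl 0)
      + !![α, β; -star β, star α] i 1 * p.1 (Sum.inl 1) := by
    intro i
    rw [hval]
    simp [Matrix.mulVec, dotProduct, Fintype.sum_sum_type]
  have c2 : ∀ i, (u.1 *ᵥ p.1) (Sum.inr i) = !![α, β; -star β, star α] i 0 * p.1 (Sum.inr 0)
      + !![α, β; -star β, star α] i 1 * p.1 (Sum.inr 1) := by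
    intro i
    rw [hval]
    simp [Matrix.mulVec, dotProduct, Fintype.sum_sum_type]
  have c3 : ∀ i, (p.2 ᵥ* (u⁻¹).1) (Sum.inl i)
      = p.2 (Sum.inl 0) * star (!![α, β; -star β, star α] i 0)
      + p.2 (Sum.inl 1) * star (!![α, β; -star β, star α] i 1) := by
    intro i
    rw [h3, hval]
    simp [Matrix.vecMul, dotProduct, Fintype.sum_sum_type, Matrix.fromBlocks_conjTranspose]
  have c4 : ∀ i, (p.2 ᵥ* (u⁻¹).1) (Sum.inr i)
      = p.2 (Sum.inr 0) * star (!![α, β; -star β, star α] i 0)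
      + p.2 (Sum.inr 1) * star (!![α, β; -star β, star α] i 1) := by
    intro i
    rw [h3, hval]
    simp [Matrix.vecMul, dotProduct, Fintype.sum_sum_type, Matrix.fromBlocks_conjTranspose]
  show !![(u.1 *ᵥ p.1) (Sum.inl 0), (u.1 *ᵥ p.1) (Sum.inr 0), -(p.2 ᵥ* (u⁻¹).1) (Sum.inl 1),
      -(p.2 ᵥ* (u⁻¹).1) (Sum.inr 1);
    (u.1 *ᵥ p.1) (Sum.inl 1), (u.1 *ᵥ p.1) (Sum.inr 1), (p.2 ᵥ* (u⁻¹).1) (Sum.inl 0),
      (p.2 ᵥ* (u⁻¹).1) (Sum.inr 0);
    -star ((p.2 ᵥ* (u⁻¹).1) (Sum.inl 1)), -star ((p.2 ᵥ* (u⁻¹).1) (Sum.inr 1)),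
      star ((u.1 *ᵥ p.1) (Sum.inl 0)), star ((u.1 *ᵥ p.1) (Sum.inr 0));
    star ((p.2 ᵥ* (u⁻¹).1) (Sum.inl 0)), star ((p.2 ᵥ* (u⁻¹).1) (Sum.inr 0)),
      star ((u.1 *ᵥ p.1) (Sum.inl 1)), star ((u.1 *ᵥ p.1) (Sum.inr 1))] = _
  simp only [c1, c2, c3, c4]
  ext i j
  fin_cases i <;> fin_cases j <;>
    simp [matD, matA, Matrix.mul_apply, Fin.sum_univ_four] <;> ring

lemma sheet_smul {u : Matrix.unitaryGroup (Fin 2 ⊕ Fin 2) ℂ} (hu : u ∈ G0)
    (p : TA (Fin 2 ⊕ Fin 2)) : sheet (actA u p) = sheet p := by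
  obtain ⟨α, β, h, hval⟩ := mem_G0 hu
  rw [sheet, matA_act hval, Matrix.det_mul, matD_det α β h, one_mul, sheet]

lemma matA_real (p : TA (Fin 2 ⊕ Fin 2)) : star (matA p).det = (matA p).det := by
  rw [← Matrix.det_conjTranspose, ← Matrix.det_transpose]
  let e : Fin 4 ≃ Fin 4 := Equiv.swap 0 2 * Equiv.swap 1 3
  have h : ((matA p)ᴴ)ᵀ = (matA p).submatrix e e := by
    ext i j
    fin_cases i <;> fin_cases j <;> simp [matA, e, Equiv.swap_apply_def] 
  rw [h, Matrix.det_submatrix_equiv_self]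

/-- Relations satisfied by all elements of the Lie algebra of `G0`. -/
lemma lieAlg_rel {X : Matrix (Fin 2 ⊕ Fin 2) (Fin 2 ⊕ Fin 2) ℂ} (hX : X ∈ lieAlg G0) :
    (∀ i j, X (Sum.inr i) (Sum.inl j) = 0 ∧ X (Sum.inl i) (Sum.inr j) = 0) ∧
    (∀ i j, X (Sum.inl i) (Sum.inl j) = X (Sum.inr i) (Sum.inr j)) ∧
    X (Sum.inr 0) (Sum.inr 0) + X (Sum.inr 1) (Sum.inr 1) = 0 := by
  obtain ⟨γ, h1, h2, h3⟩ := hX
  have h0 : ∀ i j, (γ 0).1 i j = (1 : Matrix (Fin 2 ⊕ Fin 2) (Fin 2 ⊕ Fin 2) ℂ) i j := by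
    intro i j
    rw [h2]
    rfl
  have h0r : ∀ i j, (γ 0).1 (Sum.inr i) (Sum.inr j) = (1 : Matrix (Fin 2) (Fin 2) ℂ) i j := by
    intro i j
    rw [h0, ← Matrix.fromBlocks_one]
    rfl
  refine ⟨?_, ?_, ?_⟩
  · intro i j
    constructor
    · have hd := h3 (Sum.inr i) (Sum.inl j)
      have : (fun s => (γ s).1 (Sum.inr i) (Sum.inl j)) = fun _ => 0 := by
        funext s
        obtain ⟨α, β, -, hu⟩ := mem_G0 (h1 s)
        rw [hu, Matrix.fromBlocks_apply₂₁]
        rfl
      rw [this] at hd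
      exact hd.unique (hasDerivAt_const _ _)
    · have hd := h3 (Sum.inl i) (Sum.inr j)
      have : (fun s => (γ s).1 (Sum.inl i) (Sum.inr j)) = fun _ => 0 := by
        funext s
        obtain ⟨α, β, -, hu⟩ := mem_G0 (h1 s)
        rw [hu, Matrix.fromBlocks_apply₁₂]
        rfl
      rw [this] at hd
      exact hd.unique (hasDerivAt_const _ _)
  · intro i j
    have hd1 := h3 (Sum.inl i) (Sum.inl j)
    have hd2 := h3 (Sum.inr i) (Sum.inr j)
    have : (fun s => (γ s).1 (Sum.inl i) (Sum.inl j))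
        = fun s => (γ s).1 (Sum.inr i) (Sum.inr j) := by
      funext s
      obtain ⟨α, β, -, hu⟩ := mem_G0 (h1 s)
      rw [hu]
      rfl
    rw [this] at hd1
    exact hd1.unique hd2
  · have hd := ((h3 (Sum.inr 0) (Sum.inr 0)).fun_mul (h3 (Sum.inr 1) (Sum.inr 1))).fun_sub
      ((h3 (Sum.inr 0) (Sum.inr 1)).fun_mul (h3 (Sum.inr 1) (Sum.inr 0)))
    have : (fun s => (γ s).1 (Sum.inr 0) (Sum.inr 0) * (γ s).1 (Sum.inr 1) (Sum.inr 1)
        - (γ s).1 (Sum.inr 0) (Sum.inr 1) * (γ s).1 (Sum.inr 1) (Sum.inr 0)) = fun _ => 1 := by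
      funext s
      obtain ⟨α, β, h, hu⟩ := mem_G0 (h1 s)
      rw [hu]
      simp only [Matrix.fromBlocks_apply₂₂]
      simp
      simp only [Complex.star_def] at h
      linear_combination h
    rw [this] at hd
    have h4 := (hasDerivAt_const (0 : ℝ) (1 : ℂ)).unique hd
    simp only [h0r] at h4
    simp at h4
    linear_combination -h4

/-- On the zero level set the matrix of `p` is `1/√2` times a unitary matrix. -/
lemma level_matA {p : TA (Fin 2 ⊕ Fin 2)} (hp : p ∈ zeroLevel G0) :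
    matA p * (matA p)ᴴ = (1 / 2 : ℂ) • (1 : Matrix (Fin 4) (Fin 4) ℂ) := by
  have hR : ∀ X ∈ lieAlg G0, muR X p = 0 := by
    intro X hX
    have h := hp.2 0 X hX
    rw [moment_zero] at h
    linarith
  have hC : ∀ X ∈ lieAlg G0, muC X p = 0 := by
    intro X hX
    have h1 := hp.2 1 X hX
    have h2 := hp.2 2 X hX
    rw [moment_one] at h1
    rw [moment_two] at h2
    apply Complex.ext
    · show (muC X p).re = 0
      linarith
    · show (muC X p).im = 0
      linarith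
  obtain ⟨E1, E2, E3, E5, E6⟩ := level_eqs p (hR gD mem_lieAlg_D) (hC gD mem_lieAlg_D)
    (hR gE mem_lieAlg_R) (hC gE mem_lieAlg_R) (hR gS mem_lieAlg_S) (hC gS mem_lieAlg_S)
  have hs : gR p p = 1 := hp.1
  have nn : ∀ z : ℂ, z * star z = ((‖z‖ ^ 2 : ℝ) : ℂ) := fun z => by
    rw [Complex.star_def, Complex.mul_conj, Complex.normSq_eq_norm_sq]
  have hs2 : p.1 (Sum.inl 0) * star (p.1 (Sum.inl 0)) + p.1 (Sum.inl 1) * star (p.1 (Sum.inl 1))
      + p.1 (Sum.inr 0) * star (p.1 (Sum.inr 0)) + p.1 (Sum.inr 1) * star (p.1 (Sum.inr 1))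
      + p.2 (Sum.inl 0) * star (p.2 (Sum.inl 0)) + p.2 (Sum.inl 1) * star (p.2 (Sum.inl 1))
      + p.2 (Sum.inr 0) * star (p.2 (Sum.inr 0)) + p.2 (Sum.inr 1) * star (p.2 (Sum.inr 1))
      = 1 := by
    have nn' : ∀ z : ℂ, star z * z = ((‖z‖ ^ 2 : ℝ) : ℂ) := fun z => by rw [mul_comm, nn]
    rw [gR] at hs
    simp only [dotProduct, Fintype.sum_sum_type, Fin.sum_univ_two, Pi.star_apply, nn'] at hs
    simp only [nn]
    rw [← Complex.ofReal_add, ← Complex.ofReal_add, ← Complex.ofReal_add, ← Complex.ofReal_add,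
      ← Complex.ofReal_add, ← Complex.ofReal_add, ← Complex.ofReal_add, Complex.ofReal_re] at hs
    rw [← Complex.ofReal_one, ← hs]
    push_cast
    ring
  have E1' := congrArg star E1
  have E2' := congrArg star E2
  have E3' := congrArg star E3
  have E5' := congrArg star E5
  simp only [star_add, star_sub, star_mul', star_star, star_zero] at E1' E2' E3' E5'
  simp only [Complex.star_def] at *
  ext i j
  fin_cases i <;> fin_cases j <;>
    simp [matA, Matrix.mul_apply, Fin.sum_univ_four, Matrix.conjTranspose_apply] <;>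
    first
    | linear_combination (hs2 + E6) / 2
    | linear_combination (hs2 - E6) / 2
    | linear_combination E5
    | linear_combination E5'
    | linear_combination (-2) * E1
    | linear_combination (-2) * E1'
    | linear_combination 2 * E2
    | linear_combination 2 * E2'
    | linear_combination E3
    | linear_combination E3'

lemma sheet_ne_zero (p : TA (Fin 2 ⊕ Fin 2)) (hp : p ∈ zeroLevel G0) : sheet p ≠ 0 := by
  intro h
  have h1 := congrArg Matrix.det (level_matA hp)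
  rw [Matrix.det_mul, Matrix.det_conjTranspose, Matrix.det_smul, Matrix.det_one,
    matA_real] at h1
  have h2 : (matA p).det = 0 := by
    apply Complex.ext
    · exact h
    · have := congrArg Complex.im (matA_real p)
      simp at this
      show (matA p).det.im = 0
      linarith
  rw [h2] at h1
  norm_num at h1

/-- `G0` acts freely on the zero level set. -/
lemma level_free {p : TA (Fin 2 ⊕ Fin 2)} (hp : p ∈ zeroLevel G0)
    {u : Matrix.unitaryGroup (Fin 2 ⊕ Fin 2) ℂ} (hu : u ∈ G0) (hfix : actA u p = p) : u = 1 := by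
  obtain ⟨α, β, h, hval⟩ := mem_G0 hu
  have h1 := matA_act hval p
  rw [hfix] at h1
  have h2 : matD α β = 1 := by
    have h3 : matA p * (matA p)ᴴ = matD α β * (matA p * (matA p)ᴴ) := by
      rw [← Matrix.mul_assoc, ← h1]
    rw [level_matA hp, Matrix.mul_smul, Matrix.mul_one] at h3
    have h4 : (2 : ℂ) • ((1 / 2 : ℂ) • (1 : Matrix (Fin 4) (Fin 4) ℂ))
        = (2 : ℂ) • ((1 / 2 : ℂ) • matD α β) := by rw [h3]
    rw [smul_smul, smul_smul] at h4
    norm_num at h4
    exact h4.symm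
  have e00 := congrFun (congrFun h2 0) 0
  have e01 := congrFun (congrFun h2 0) 1
  simp [matD] at e00 e01
  apply Subtype.ext
  rw [hval, e00, e01]
  ext i j
  rcases i with i | i <;> rcases j with j | j <;> fin_cases i <;> fin_cases j <;> simp


/-! Two points of the level set, in different components, and a path joining them in the sphere. -/

/-- `1/√2`. -/
def rt : ℝ := (Real.sqrt 2)⁻¹

lemma rt_sq : rt * rt = 1 / 2 := by
  rw [rt, ← mul_inv, Real.mul_self_sqrt (by norm_num)]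
  norm_num

lemma rt_pos : 0 < rt := by
  rw [rt]
  positivity

/-- A path in the sphere. -/
def pth (t : ℝ) : TA (Fin 2 ⊕ Fin 2) :=
  (Sum.elim ![(rt : ℂ), 0] ![0, ((rt * Real.sin (t * (Real.pi / 2)) : ℝ) : ℂ)],
    Sum.elim ![0, 0] ![((rt * Real.cos (t * (Real.pi / 2)) : ℝ) : ℂ), 0])

lemma pth_continuous : Continuous pth := by
  have h : Continuous fun t : ℝ =>
      ((Sum.elim ![(rt : ℂ), 0] ![0, ((rt * Real.sin (t * (Real.pi / 2)) : ℝ) : ℂ)],
    Sum.elim ![0, 0] ![((rt * Real.cos (t * (Real.pi / 2)) : ℝ) : ℂ), 0]) :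
      (Fin 2 ⊕ Fin 2 → ℂ) × (Fin 2 ⊕ Fin 2 → ℂ)) := by
    apply Continuous.prodMk
    · apply continuous_pi
      intro i
      rcases i with i | i <;> fin_cases i <;> simp <;> fun_prop
    · apply continuous_pi
      intro i
      rcases i with i | i <;> fin_cases i <;> simp <;> fun_prop
  exact h

lemma pth_sph (t : ℝ) : pth t ∈ sph (Fin 2 ⊕ Fin 2) := by
  show gR (pth t) (pth t) = 1
  rw [gR]
  simp only [pth, dotProduct, Fintype.sum_sum_type, Fin.sum_univ_two, Pi.star_apply, Sum.elim_inl,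
    Sum.elim_inr, Matrix.cons_val_zero, Matrix.cons_val_one, Matrix.cons_val_fin_one,
    Complex.star_def, Complex.conj_ofReal, map_zero, mul_zero, add_zero, zero_add]
  simp only [← Complex.ofReal_mul, ← Complex.ofReal_add, Complex.ofReal_re]
  have h1 := rt_sq
  have h2 := Real.sin_sq_add_cos_sq (t * (Real.pi / 2))
  linear_combination (1 + Real.sin (t * (Real.pi / 2)) ^ 2 + Real.cos (t * (Real.pi / 2)) ^ 2) * h1
    + h2 / 2

/-- A point of the level set. -/
def pt0 : TA (Fin 2 ⊕ Fin 2) := (Sum.elim ![(rt : ℂ), 0] ![0, 0], Sum.elim ![0, 0] ![(rt : ℂ), 0])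

/-- A point of the level set. -/
def pt1 : TA (Fin 2 ⊕ Fin 2) := (Sum.elim ![(rt : ℂ), 0] ![0, (rt : ℂ)], Sum.elim ![0, 0] ![0, 0])

lemma pth_zero : pth 0 = pt0 := by
  simp only [pth, pt0]
  congr 2 <;> simp

lemma pth_one : pth 1 = pt1 := by
  simp only [pth, pt1]
  congr 2 <;> simp

lemma zero_of_mu {p : TA (Fin 2 ⊕ Fin 2)} {X : Matrix (Fin 2 ⊕ Fin 2) (Fin 2 ⊕ Fin 2) ℂ}
    (hR : muR X p = 0) (hC : muC X p = 0) (a : Fin 3) : moment a X p = 0 := by
  fin_cases a
  · show moment 0 X p = 0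
    rw [moment_zero, hR, neg_zero]
  · show moment 1 X p = 0
    rw [moment_one, hC]
    simp
  · show moment 2 X p = 0
    rw [moment_two, hC]
    simp

lemma pth_zero_mem : pth 0 ∈ zeroLevel G0 := by
  refine ⟨pth_sph 0, ?_⟩
  intro a X hX
  obtain ⟨h1, h2, h3⟩ := lieAlg_rel hX
  rw [pth_zero]
  apply zero_of_mu
  · simp only [pt0, muR, dotProduct, Matrix.mulVec, Fintype.sum_sum_type, Fin.sum_univ_two,
      Pi.star_apply, Sum.elim_inl, Sum.elim_inr, Matrix.cons_val_zero, Matrix.cons_val_one,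
      Matrix.cons_val_fin_one, Complex.star_def, Complex.conj_ofReal, map_zero, mul_zero,
      add_zero, zero_add, zero_mul, (h1 _ _).1, (h1 _ _).2, h2]
    simp
  · simp only [pt0, muC, dotProduct, Matrix.mulVec, Fintype.sum_sum_type, Fin.sum_univ_two,
      Sum.elim_inl, Sum.elim_inr, Matrix.cons_val_zero, Matrix.cons_val_one,
      Matrix.cons_val_fin_one, mul_zero, add_zero, zero_add, zero_mul, (h1 _ _).1]

lemma pth_one_mem : pth 1 ∈ zeroLevel G0 := by
  refine ⟨pth_sph 1, ?_⟩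
  intro a X hX
  obtain ⟨h1, h2, h3⟩ := lieAlg_rel hX
  rw [pth_one]
  apply zero_of_mu
  · simp only [pt1, muR, dotProduct, Matrix.mulVec, Fintype.sum_sum_type, Fin.sum_univ_two,
      Pi.star_apply, Sum.elim_inl, Sum.elim_inr, Matrix.cons_val_zero, Matrix.cons_val_one,
      Matrix.cons_val_fin_one, Complex.star_def, Complex.conj_ofReal, map_zero, mul_zero,
      add_zero, zero_add, zero_mul, (h1 _ _).1, (h1 _ _).2, h2]
    have : Complex.I / 2 * ((rt : ℂ) * (X (Sum.inr 0) (Sum.inr 0) * (rt : ℂ))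
        + (rt : ℂ) * (X (Sum.inr 1) (Sum.inr 1) * (rt : ℂ)) - 0) = 0 := by
      linear_combination Complex.I / 2 * (rt : ℂ) * (rt : ℂ) * h3
    rw [this]
    rfl
  · simp only [pt1, muC, dotProduct, Matrix.mulVec, Fintype.sum_sum_type, Fin.sum_univ_two,
      Sum.elim_inl, Sum.elim_inr, Matrix.cons_val_zero, Matrix.cons_val_one,
      Matrix.cons_val_fin_one, mul_zero, add_zero, zero_add, zero_mul, (h1 _ _).1]

lemma sheet_pth_zero : sheet (pth 0) < 0 := by
  have h : (matA pt0).det = -((rt * rt * (rt * rt) : ℝ) : ℂ) := by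
    simp [pt0, matA, Matrix.det_succ_row_zero, Fin.sum_univ_succ, Fin.succAbove]
    ring
  rw [pth_zero, sheet, h, rt_sq, Complex.neg_re, Complex.ofReal_re]
  norm_num

lemma sheet_pth_one : 0 < sheet (pth 1) := by
  have h : (matA pt1).det = ((rt * rt * (rt * rt) : ℝ) : ℂ) := by
    simp [pt1, matA, Matrix.det_succ_row_zero, Fin.sum_univ_succ, Fin.succAbove]
    ring
  rw [pth_one, sheet, h, rt_sq, Complex.ofReal_re]
  norm_num

/-! The basis of the Lie algebra. -/

lemma lieAlg_skew (G : Subgroup (Matrix.unitaryGroup ι ℂ)) {X : Matrix ι ι ℂ}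
    (hX : X ∈ lieAlg G) : Xᴴ = -X := by
  obtain ⟨γ, h1, h2, h3⟩ := hX
  have h0 : ∀ i j, (γ 0).1 i j = (1 : Matrix ι ι ℂ) i j := by
    intro i j
    rw [h2]
    rfl
  ext i j
  have hu : (fun s => ∑ k, (γ s).1 j k * star ((γ s).1 i k)) = fun _ => (1 : Matrix ι ι ℂ) j i := by
    funext s
    have := Matrix.mem_unitaryGroup_iff.1 (γ s).2
    have := congrFun (congrFun this j) i
    rw [Matrix.mul_apply] at this
    exact this
  have hconj : ∀ k, HasDerivAt (fun s => star ((γ s).1 i k)) (star (X i k)) 0 := by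
    intro k
    exact (h3 i k).star
  have hd : HasDerivAt (fun s => ∑ k, (γ s).1 j k * star ((γ s).1 i k))
      (∑ k, (X j k * star ((γ 0).1 i k) + (γ 0).1 j k * star (X i k))) 0 :=
    HasDerivAt.fun_sum fun k _ => (h3 j k).fun_mul (hconj k)
  rw [hu] at hd
  have h4 := (hasDerivAt_const (0 : ℝ) ((1 : Matrix ι ι ℂ) j i)).unique hd
  have h5 : ∑ k, (X j k * star ((γ 0).1 i k) + (γ 0).1 j k * star (X i k)) = X j i + star (X i j) := by
    rw [Finset.sum_add_distrib]
    congr 1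
    · rw [Finset.sum_eq_single i]
      · rw [h0, Matrix.one_apply_eq]
        simp
      · intro k _ hk
        rw [h0, Matrix.one_apply_ne hk.symm]
        simp
      · intro h
        exact absurd (Finset.mem_univ i) h
    · rw [Finset.sum_eq_single j]
      · rw [h0, Matrix.one_apply_eq]
        simp
      · intro k _ hk
        rw [h0, Matrix.one_apply_ne hk.symm]
        simp
      · intro h
        exact absurd (Finset.mem_univ j) h
  rw [h5] at h4
  rw [Matrix.conjTranspose_apply, Matrix.neg_apply]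
  have h6 : star (X j i) + X i j = 0 := by
    have := congrArg star h4
    simpa using this.symm
  linear_combination h6

lemma lieAlg_smul (G : Subgroup (Matrix.unitaryGroup ι ℂ)) {X : Matrix ι ι ℂ}
    (hX : X ∈ lieAlg G) (r : ℝ) : r • X ∈ lieAlg G := by
  obtain ⟨γ, h1, h2, h3⟩ := hX
  refine ⟨fun s => γ (r * s), fun s => h1 _, by simp [h2], ?_⟩
  intro i j
  have h4 : HasDerivAt (fun s : ℝ => r * s) r 0 := by
    simpa using (hasDerivAt_id (0 : ℝ)).const_mul r
  have h5 : HasDerivAt (fun s => (γ s).1 i j) (X i j) (r * 0) := by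
    rw [mul_zero]
    exact h3 i j
  exact h5.scomp (0 : ℝ) h4

/-- An orthonormal basis of the Lie algebra of `G0`. -/
def e0 (j : Fin 3) : Matrix (Fin 2 ⊕ Fin 2) (Fin 2 ⊕ Fin 2) ℂ :=
  if j = 0 then (2⁻¹ : ℝ) • gD else if j = 1 then (2⁻¹ : ℝ) • gE else (2⁻¹ : ℝ) • gS

lemma e0_orth (j k : Fin 3) : (e0 j * (e0 k)ᴴ).trace.re = if j = k then 1 else 0 := by
  fin_cases j <;> fin_cases k <;>
    simp [e0, gD, gE, gS, Matrix.trace, Matrix.mul_apply, Matrix.fromBlocks_conjTranspose,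
      Fin.sum_univ_two, Matrix.conjTranspose_apply, Fintype.sum_sum_type]
  · norm_num
  · norm_num
  · norm_num

lemma e0_span {X : Matrix (Fin 2 ⊕ Fin 2) (Fin 2 ⊕ Fin 2) ℂ} (hX : X ∈ lieAlg G0) :
    ∃ c : Fin 3 → ℝ, X = ∑ j, c j • e0 j := by
  obtain ⟨h1, h2, h3⟩ := lieAlg_rel hX
  have hs := lieAlg_skew G0 hX
  have hs' : ∀ i j, star (X j i) = -X i j := by
    intro i j
    have := congrFun (congrFun hs i) j
    rwa [Matrix.conjTranspose_apply, Matrix.neg_apply] at this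
  let α : ℝ := (X (Sum.inr 0) (Sum.inr 0)).im
  let β : ℂ := X (Sum.inr 0) (Sum.inr 1)
  refine ⟨![2 * α, 2 * β.re, 2 * β.im], ?_⟩
  have hsum : ∑ j, (![2 * α, 2 * β.re, 2 * β.im] : Fin 3 → ℝ) j • e0 j
      = α • gD + β.re • gE + β.im • gS := by
    have z1 : e0 0 = (2⁻¹ : ℝ) • gD := by simp [e0]
    have z2 : e0 1 = (2⁻¹ : ℝ) • gE := by simp [e0]
    have z3 : e0 2 = (2⁻¹ : ℝ) • gS := by simp [e0]
    rw [Fin.sum_univ_three, z1, z2, z3]
    simp only [Matrix.cons_val_zero, Matrix.cons_val_one, Matrix.cons_val]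
    rw [smul_smul, smul_smul, smul_smul]
    congr 1
    · congr 1
      · congr 1
        ring
      · congr 1
        ring
    · congr 1
      ring
  rw [hsum]
  have d0 : ∀ i, (X i i).re = 0 := by
    intro i
    have := congrArg Complex.re (hs' i i)
    simp at this
    linarith
  have b10 : X (Sum.inr 1) (Sum.inr 0) = -star β := by
    have := hs' (Sum.inr 1) (Sum.inr 0)
    rw [show X (Sum.inr 0) (Sum.inr 1) = β from rfl] at this
    rw [this, neg_neg]
  have b11 : X (Sum.inr 1) (Sum.inr 1) = -X (Sum.inr 0) (Sum.inr 0) := by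
    linear_combination h3
  have hblock : ∀ i j, X (Sum.inr i) (Sum.inr j)
      = (α • !![Complex.I, 0; 0, -Complex.I] + β.re • !![(0 : ℂ), 1; -1, 0]
        + β.im • !![(0 : ℂ), Complex.I; Complex.I, 0]) i j := by
    intro i j
    fin_cases i <;> fin_cases j
    · apply Complex.ext
      · simp [d0]
      · simp [α]
    · show X (Sum.inr 0) (Sum.inr 1) = _
      apply Complex.ext <;> simp [β]
    · show X (Sum.inr 1) (Sum.inr 0) = _
      rw [b10]
      apply Complex.ext <;> simp [β]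
    · show X (Sum.inr 1) (Sum.inr 1) = _
      rw [b11]
      apply Complex.ext
      · simp [d0]
      · simp [α]
  ext i j
  rcases i with i | i <;> rcases j with j | j
  · rw [h2, hblock]
    rfl
  · rw [(h1 i j).2]
    simp [gD, gE, gS]
  · rw [(h1 i j).1]
    simp [gD, gE, gS]
  · rw [hblock]
    rfl

lemma e0_mem (j : Fin 3) : e0 j ∈ lieAlg G0 := by
  unfold e0
  split_ifs
  · exact lieAlg_smul G0 mem_lieAlg_D _
  · exact lieAlg_smul G0 mem_lieAlg_R _
  · exact lieAlg_smul G0 mem_lieAlg_S _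

lemma e0_basis : IsOrthonormalBasis G0 e0 := ⟨e0_mem, e0_orth, fun _ hX => e0_span hX⟩

/-- `EU ι` is not empty. -/
lemma EU_nonempty : Nonempty (EU (Fin 2 ⊕ Fin 2)) := by
  let k : Fin 2 ⊕ Fin 2 → ℕ := fun i => (Fintype.equivFin (Fin 2 ⊕ Fin 2) i : ℕ)
  have hk : Function.Injective k := fun i j h =>
    (Fintype.equivFin (Fin 2 ⊕ Fin 2)).injective (Fin.ext h)
  refine ⟨⟨fun n i => if n = k i then 1 else 0, ?_⟩⟩
  intro v hv
  funext j
  have h := hv (k j)
  rw [dotProduct, Finset.sum_eq_single j] at h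
  · simpa using h
  · intro i _ hij
    show (if k j = k i then (1 : ℂ) else 0) * v i = 0
    rw [if_neg fun h' => hij (hk h').symm, zero_mul]
  · intro h'
    exact absurd (Finset.mem_univ j) h'


lemma kirwan_not_surjective : ¬ Function.Surjective (kirwan G0 0) :=
  not_surjective_zero G0 (zeroLevel G0) (sph _) (zeroLevel_subset G0) sheet sheet_continuous
    (fun g hg p => sheet_smul hg p) sheet_ne_zero (pth 0) (pth 1) pth_zero_mem pth_one_mem
    sheet_pth_zero sheet_pth_one ⟨pth, pth_continuous⟩ pth_sph rfl rfl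
    (Classical.choice EU_nonempty)

theorem result : ∃ (ι : Type) (_ : Fintype ι) (_ : DecidableEq ι)
    (G : Subgroup (Matrix.unitaryGroup ι ℂ)) (m : ℕ) (e : Fin m → Matrix ι ι ℂ) (d k : ℕ),
    IsCompact (G : Set (Matrix.unitaryGroup ι ℂ)) ∧
    IsConnected (G : Set (Matrix.unitaryGroup ι ℂ)) ∧
    IsAutomorphic G ∧
    IsOrthonormalBasis G e ∧
    (zeroLevel G).Nonempty ∧
    (∀ p ∈ zeroLevel G, ∀ g ∈ G, actA g p = p → g = 1) ∧
    d + 4 * m + 1 = 4 * Fintype.card ι ∧
    2 * k < d ∧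
    ¬ Function.Surjective (kirwan G k) :=
  ⟨Fin 2 ⊕ Fin 2, _, _, G0, 3, e0, 3, 0, G0_compact, G0_connected,
    ⟨fun g _ u v => gR_actA g u v, fun g _ a u => actA_cs g a u⟩, e0_basis,
    ⟨pth 1, pth_one_mem⟩, fun _ hp _ hg h => level_free hp hg h, by simp, by norm_num,
    kirwan_not_surjective⟩


end

end Pool.Agent.Results.MP_bcebf9_gt.SphereReduction
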